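import Pool.Agent.J4H60.IF.Stm

/-!
Project IF of helper60 (MP_5f100a_co): (I).
-/

set_option autoImplicit false

namespace Pool.Agent.J4H57.IF

open Finset Pool.Agent.J4H60.IF

theorem ne_compl (X : V) : X ≠ Xᶜ := by
  intro h
  have h1 : (0 : Fin 7) ∈ X ↔ (0 : Fin 7) ∉ X := by
    conv_lhs => rw [h]
    exact mem_compl
  tauto

theorem one_of {F : Finset V} (hc : F.card = 64) (hd : ∀ X ∈ F, ∀ Y ∈ F, X ≠ Y → ¬ Disjoint X Y) (X : V) :
    X ∈ F ∨ Xᶜ ∈ F := by
  have hdis : Disjoint F (F.image compl) := by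
    rw [disjoint_left]
    intro Y hY hY'
    obtain ⟨Z, hZ, rfl⟩ := mem_image.mp hY'
    exact hd Z hZ _ hY (ne_compl Z) disjoint_compl_right
  have hcard : (F ∪ F.image compl).card = 128 := by
    rw [card_union_of_disjoint hdis, card_image_of_injective _ compl_injective, hc]
  have huniv : F ∪ F.image compl = univ := by
    apply eq_univ_of_card
    rw [hcard, Fintype.card_finset, Fintype.card_fin]
    norm_num
  have h1 : X ∈ F ∪ F.image compl := by rw [huniv]; exact mem_univ X
  rcases mem_union.mp h1 with h | h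
  · exact Or.inl h
  · obtain ⟨Z, hZ, rfl⟩ := mem_image.mp h
    right
    rwa [compl_compl]

theorem t_I : S_I := by
  intro A hA _
  unfold cnt ind
  refine card_le_card_of_injOn (fun F => F.filter (fun X => X.card = 3)) ?_ ?_
  · intro F hF
    rw [mem_coe, mem_filter, mem_powersetCard] at hF
    obtain ⟨⟨hFA, _⟩, hd⟩ := hF
    rw [mem_coe, mem_filter, mem_powerset]
    refine ⟨filter_subset_filter _ hFA, ?_⟩
    intro X hX Y hY hXY
    exact hd X (mem_filter.mp hX).1 Y (mem_filter.mp hY).1 hXY
  · intro F hF F' hF' h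
    rw [mem_coe, mem_filter, mem_powersetCard] at hF hF'
    obtain ⟨⟨hFA, hFc⟩, hFd⟩ := hF
    obtain ⟨⟨hFA', hFc'⟩, hFd'⟩ := hF'
    have h3 : ∀ X : V, X.card = 3 → (X ∈ F ↔ X ∈ F') := by
      intro X hX
      have h1 : X ∈ F.filter (fun X => X.card = 3) ↔ X ∈ F'.filter (fun X => X.card = 3) := by
        rw [show F.filter (fun X => X.card = 3) = F'.filter (fun X => X.card = 3) from h]
      rw [mem_filter, mem_filter] at h1
      tauto
    apply eq_of_subset_of_card_le
    · intro X hX
      have hX3 := hA X (hFA hX)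
      by_cases h0 : X.card = 3
      · exact (h3 X h0).mp hX
      · rcases one_of hFc' hFd' X with h1 | h1
        · exact h1
        · exfalso
          have h2 := hA _ (hFA' h1)
          have h4 := card_compl X
          rw [Fintype.card_fin] at h4
          have h5 : Xᶜ.card = 3 := by omega
          exact hFd X hX _ ((h3 _ h5).mpr h1) (ne_compl X) disjoint_compl_right
    · rw [hFc, hFc']

end Pool.Agent.J4H57.IF
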