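import Pool.Agent.J4H60.IF.Stm

/-!
Project IF of helper60 (MP_5f100a_co): (P).
-/

set_option autoImplicit false

namespace Pool.Agent.J4H57.IF

open Finset Pool.Agent.J4H60.IF

theorem pair_eq {a b c d : V} (h : ({a, b} : Finset V) = {c, d}) : (a = c ∧ b = d) ∨ (a = d ∧ b = c) := by
  have ha : a ∈ ({c, d} : Finset V) := by rw [← h]; simp
  have hb : b ∈ ({c, d} : Finset V) := by rw [← h]; simp
  have hc : c ∈ ({a, b} : Finset V) := by rw [h]; simp
  have hd : d ∈ ({a, b} : Finset V) := by rw [h]; simp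
  rw [mem_insert, mem_singleton] at ha hb hc hd
  rcases ha with rfl | rfl
  · rcases hb with rfl | rfl
    · rcases hd with rfl | rfl <;> exact Or.inl ⟨rfl, rfl⟩
    · exact Or.inl ⟨rfl, rfl⟩
  · rcases hb with rfl | rfl
    · exact Or.inr ⟨rfl, rfl⟩
    · rcases hc with rfl | rfl <;> exact Or.inr ⟨rfl, rfl⟩

theorem t_P : S_P := by
  intro A
  obtain ⟨T, hT⟩ : ∃ T : Finset (V × V), T = A.offDiag.filter (fun p => ¬ Disjoint p.1 p.2) := ⟨_, rfl⟩
  obtain ⟨S, hS⟩ : ∃ S : Finset (Finset V), S = (A.powersetCard 2).filter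
    (fun F => ∀ X ∈ F, ∀ Y ∈ F, X ≠ Y → ¬ Disjoint X Y) := ⟨_, rfl⟩
  have hmaps : ∀ p ∈ T, ({p.1, p.2} : Finset V) ∈ S := by
    rintro ⟨a, b⟩ hp
    rw [hT, mem_filter, mem_offDiag] at hp
    obtain ⟨⟨ha, hb, hab⟩, hd⟩ := hp
    rw [hS, mem_filter, mem_powersetCard]
    refine ⟨⟨?_, card_pair hab⟩, ?_⟩
    · intro x hx
      rw [mem_insert, mem_singleton] at hx
      rcases hx with rfl | rfl
      · exact ha
      · exact hb
    · intro X hX Y hY hXY
      rw [mem_insert, mem_singleton] at hX hY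
      rcases hX with rfl | rfl
      · rcases hY with rfl | rfl
        · exact absurd rfl hXY
        · exact hd
      · rcases hY with rfl | rfl
        · exact fun h => hd h.symm
        · exact absurd rfl hXY
  have hfib : ∀ F ∈ S, (T.filter (fun p => ({p.1, p.2} : Finset V) = F)).card = 2 := by
    intro F hF
    rw [hS, mem_filter, mem_powersetCard] at hF
    obtain ⟨⟨hFA, hF2⟩, hFd⟩ := hF
    obtain ⟨a, b, hab, rfl⟩ := card_eq_two.mp hF2
    have ha : a ∈ ({a, b} : Finset V) := by simp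
    have hb : b ∈ ({a, b} : Finset V) := by simp
    have h1 : T.filter (fun p => ({p.1, p.2} : Finset V) = {a, b}) = {(a, b), (b, a)} := by
      ext ⟨c, d⟩
      rw [mem_filter, mem_insert, mem_singleton, hT, mem_filter, mem_offDiag]
      constructor
      · rintro ⟨_, h⟩
        rcases pair_eq h with ⟨h1, h2⟩ | ⟨h1, h2⟩
        · exact Or.inl (Prod.ext h1 h2)
        · exact Or.inr (Prod.ext h1 h2)
      · rintro (h | h)
        · obtain ⟨rfl, rfl⟩ := Prod.mk.inj h
          exact ⟨⟨⟨hFA ha, hFA hb, hab⟩, hFd _ ha _ hb hab⟩, rfl⟩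
        · obtain ⟨rfl, rfl⟩ := Prod.mk.inj h
          exact ⟨⟨⟨hFA hb, hFA ha, hab.symm⟩, hFd _ hb _ ha hab.symm⟩, pair_comm _ _⟩
    rw [h1, card_pair]
    intro h
    exact hab (Prod.mk.inj h).1
  have hcard : T.card = S.card * 2 := by
    rw [card_eq_sum_card_fiberwise (f := fun p : V × V => ({p.1, p.2} : Finset V)) (t := S) hmaps,
      sum_congr rfl hfib, sum_const, smul_eq_mul]
  have hD : D A = (A.offDiag.filter (fun p => Disjoint p.1 p.2)).card := by
    unfold D
    congr 1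
    ext ⟨a, b⟩
    rw [mem_filter, mem_filter, mem_product, mem_offDiag]
    constructor
    · rintro ⟨⟨h1, h2⟩, h3, h4⟩
      exact ⟨⟨h1, h2, h3⟩, h4⟩
    · rintro ⟨⟨h1, h2, h3⟩, h4⟩
      exact ⟨⟨h1, h2⟩, h3, h4⟩
  have hsum := card_filter_add_card_filter_not (s := A.offDiag) (fun p : V × V => Disjoint p.1 p.2)
  rw [offDiag_card] at hsum
  have hc : cnt A 2 = S.card := by rw [hS]; rfl
  rw [← hT, hcard, ← hD] at hsum
  rw [hc, Nat.mul_sub, mul_one]
  omega

end Pool.Agent.J4H57.IF
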